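import Pool.Agent.Helper1.Stab.Ori

/-! Hurewicz classes of the Bott class and of Bott products. -/

open CategoryTheory Topology Filter Set Matrix Opposite

noncomputable section

namespace Pool.Agent.Helper75.Stab

open Pool.Agent.Helper1.Stab

/-- any choice of the complement computes the class of a family -/
theorem bun_toG (R : GBiv) {K : LC} [CompactSpace K] {S : Type} [Fintype S] {n : ℕ}
    (E : C(K, Pr S n)) (T : Finset S) (hT : n + T.card = Fintype.card S) :
    R.bun E = Helper54.Stab.cl R (GBiv.toGF54 T hT E) := by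
  classical
  refine GBiv.bun_put54 R E (by omega) _ (i := Pr.co54 true) (A := T.map (Pr.co54 false))
    (Pr.co_notMem54 _) ?_ fun k => Pr.put_toG54 T hT (E k)
  rw [Finset.card_map]
  exact hT

/-- the common computation -/
theorem hur_aux (R : GBiv) {κ l : Type} [Fintype κ] [Fintype l] {e : ℕ}
    (f : GenLoop (Fin (2 * e)) (GK κ) (GK.base κ)) {K L : LC} [CompactSpace K]
    (φ : L ≃ₜ LC.cpow (Fin e)) (u : PMap K L.plus) (c : C(K, OnePoint (Fin e → ℂ)))
    (hc : ∀ k, c k = (PMap.ofHomeo φ).plus (u k))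
    (F : C(K, GK κ)) (hF : ∀ k, F k = loopBar f (c k)) (G : C(K, GK l))
    (h : StablyHomotopic F G)
    (x : R.Hom (LC.cpow (Fin e)) LC.point)
    (hx : R.comp (R.J (collSph e)) x =
      R.comp (R.J (PMap.ofC (K := LC.sph e) (L := LC.G κ) (loopBar f))) (R.g κ) -
        R.J (PMap.toPoint (LC.sph e))) :
    R.comp (R.J u) (R.comp (R.J (PMap.ofHomeo φ)) x) = Helper54.Stab.cl R G - R.one K := by
  have h1 : (PMap.ofHomeo φ).comp u = (collSph e).comp (PMap.ofC (K := K) (L := LC.sph e) c) := by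
    ext k
    exact (hc k).symm
  rw [← R.assoc, ← R.J_comp, h1, R.J_comp, R.assoc, hx, Helper9.Stab.c_sub, ← R.assoc,
    ← R.J_comp, ← R.J_comp]
  have h2 := StablyHomotopic.class_eq R (K := K) h
  have h3 : (PMap.ofC (K := LC.sph e) (L := LC.G κ) (loopBar f)).comp
      (PMap.ofC (K := K) (L := LC.sph e) c) = PMap.ofCont (K := K) (L := LC.G κ) F F.continuous := by
    ext k
    exact congrArg (fun z => ((z : GK κ) : OnePoint (GK κ))) (hF k).symm
  rw [h3, h2]
  rfl

/-- the Hurewicz class of the Bott class -/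
theorem hur_bott75 (R : GBiv) (x : R.Hom (LC.cpow (Fin 1)) LC.point)
    (hx : R.comp (R.J (collSph 1)) x =
      R.comp (R.J (PMap.ofC (K := LC.sph 1) (L := LC.G (Fin 1)) (loopBar (e := 1) (loopGK bott))))
        (R.g (Fin 1)) - R.J (PMap.toPoint (LC.sph 1))) :
    R.comp (R.J collP1) (R.comp (R.J (PMap.ofHomeo oneC)) x) =
      R.taut Bool - R.one (LC.Pr Bool 1) := by
  let c : C(Pr Bool 1, OnePoint (Fin 1 → ℂ)) :=
    ⟨fun P => (PMap.ofHomeo oneC).plus (collP1 P), (PMap.ofHomeo oneC).continuous_plus.comp collP1.cont⟩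
  have h1 := hur_aux R (K := LC.Pr Bool 1) (L := LC.C) (e := 1) (loopGK bott) oneC collP1 c
    (fun _ => rfl) _ (fun P => ?_) _ bott_spec x hx
  · rw [h1]
    congr 1
    exact (bun_toG R (K := LC.Pr Bool 1) (ContinuousMap.id _) {true} (by simp)).symm
  · change loopBar (e := 1) (loopGK bott) _ = loopBar (e := 1) (loopGK bott) _
    congr 1

/-- the class of the product bundle -/
theorem bun_prodBundle (R : GBiv) :
    R.bun (K := (LC.Pr Bool 1).prod (LC.Pr Bool 1)) prodBundle = R.theta Bool Bool := by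
  have h11 : 1 + 1 = Fintype.card Bool := by decide
  let cot : C(Pr Bool 1, Pr Bool 1) := ⟨Pr.perp h11, Pr.continuous_perp h11⟩
  have hcot : R.cotaut Bool = R.bun (K := LC.Pr Bool 1) (S := Bool) (n := 1) cot := by
    unfold GBiv.cotaut
    rw [dif_pos (by simp)]
    rfl
  let pf : C((LC.Pr Bool 1).prod (LC.Pr Bool 1), LC.Pr Bool 1) := ⟨Prod.fst, continuous_fst⟩
  let ps : C((LC.Pr Bool 1).prod (LC.Pr Bool 1), LC.Pr Bool 1) := ⟨Prod.snd, continuous_snd⟩
  let te : C((LC.Pr Bool 1).prod (LC.Pr Bool 1), Pr (Bool × Bool) 1) :=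
    ⟨Pr.tensor, Pr.continuous_tensor⟩
  have e1 : R.comp (R.J (PMap.ofCont (K := (LC.Pr Bool 1).prod (LC.Pr Bool 1)) (L := LC.Pr Bool 1)
      Prod.fst continuous_fst)) (R.cotaut Bool) = R.bun (cot.comp pf) :=
    (congrArg _ hcot).trans (GBiv.bun_comp R pf cot)
  have e2 : R.comp (R.J (PMap.ofCont (K := (LC.Pr Bool 1).prod (LC.Pr Bool 1)) (L := LC.Pr Bool 1)
      Prod.snd continuous_snd)) (R.cotaut Bool) = R.bun (cot.comp ps) :=
    (congrArg _ hcot).trans (GBiv.bun_comp R ps cot)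
  have e3 := GBiv.bun_sum R (K := (LC.Pr Bool 1).prod (LC.Pr Bool 1)) te (cot.comp pf)
  have e4 := GBiv.bun_sum R (K := (LC.Pr Bool 1).prod (LC.Pr Bool 1))
    (⟨fun k => Pr.sum (te k, (cot.comp pf) k), Pr.continuous_sum.comp
      (te.continuous.prodMk (cot.comp pf).continuous)⟩) (cot.comp ps)
  unfold GBiv.theta
  rw [e1, e2]
  refine Eq.trans ?_ (e4.trans (congrArg (fun z => R.mul z (R.bun (cot.comp ps))) e3))
  rfl

/-- the Hurewicz class of a Bott product -/
theorem hur_bottProduct75 (R : GBiv) {k : ℕ} (g : GenLoop (Fin (2 * 2)) (GK (Fin k))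
    (GK.base (Fin k))) (hg : IsBottProduct g) (x : R.Hom (LC.cpow (Fin 2)) LC.point)
    (twoC : LC.C.prod LC.C ≃ₜ LC.cpow (Fin 2))
    (h2 : ∀ z, twoC z = (Fin.cons z.1 (fun _ => z.2) : Fin 2 → ℂ))
    (hx : R.comp (R.J (collSph 2)) x =
      R.comp (R.J (PMap.ofC (K := LC.sph 2) (L := LC.G (Fin k)) (loopBar (e := 2) g)))
        (R.g (Fin k)) - R.J (PMap.toPoint (LC.sph 2))) :
    R.comp (R.J (collP1.box collP1)) (R.comp (R.J (PMap.ofHomeo twoC)) x) =
      R.theta Bool Bool - R.one ((LC.Pr Bool 1).prod (LC.Pr Bool 1)) := by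
  let c : C(Pr Bool 1 × Pr Bool 1, OnePoint (Fin 2 → ℂ)) :=
    ⟨fun P => (PMap.ofHomeo twoC).plus ((collP1.box collP1) P),
      (PMap.ofHomeo twoC).continuous_plus.comp (collP1.box collP1).cont⟩
  have h1 := hur_aux R (K := (LC.Pr Bool 1).prod (LC.Pr Bool 1)) (L := LC.C.prod LC.C) (e := 2)
    g twoC (collP1.box collP1) c (fun _ => rfl) _ (fun P => ?_) _ hg x hx
  · rw [h1, ← bun_prodBundle]
    congr 1
    exact (bun_toG R (K := (LC.Pr Bool 1).prod (LC.Pr Bool 1)) prodBundle prodCompl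
      prodCompl_card).symm
  · change loopBar (e := 2) g _ = loopBar (e := 2) g _
    congr 1
    change _ = (PMap.ofHomeo twoC).plus (smashPt LC.C LC.C (collP1 P.1, collP1 P.2))
    generalize smashPt LC.C LC.C (collP1 P.1, collP1 P.2) = z
    induction z using OnePoint.rec with
    | infty => rfl
    | coe z =>
      change _ = ((twoC z : Fin 2 → ℂ) : OnePoint (Fin 2 → ℂ))
      rw [h2]
      rfl

end Pool.Agent.Helper75.Stab
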