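import Pool.Agent.Helper75.Stab.BPb

/-! The graded functor of `S[BSU][1/x]` is the image of the projection (packet BP), end. -/

open CategoryTheory Topology Filter Set Opposite

noncomputable section

namespace Pool.Agent.Helper75.Stab

open Pool.Agent.Helper1.Stab
open Pool.Agent.Helper1.Stab.Bsu5 (xi xiN sqv ucl res_ucl σ_ucl
  map_ucl ucl_homotopic lvP lvP_levelsModel u_eq stMap telU modU modU_comp psiK post_modU
  homotopic_inc compat xiN_apply stHomeo stHomeo_apply sphMap good1)
open Pool.Agent.Helper39.Stab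

/-! ### The retraction with values -/

section
variable {e k : ℕ} (f : GenLoop (Fin (2 * e)) (Gr {1} k) (Gr.pt {1} k))
  (f' : GenLoop (Fin (2 * e)) (Gr Set.univ k) (Gr.pt Set.univ k))
  (ρ : ∀ l, C(stageLC goodU l, BG {1}))
  (U : C(BG {1}, BG Set.univ))
  (hU : ∀ l (A : Frame l), U (Quot.mk _ ⟨l, A⟩) = Quot.mk _ ⟨l, A⟩)
  (uk : C(Gr {1} k, Gr Set.univ k))
  (huk : ∀ A : Frame k, uk (Quot.mk _ A) = Quot.mk _ A)
  (hff : ∀ c, f' c = uk (f c))

include huk hff in
theorem retract_core0 (he : 0 < 2 * e)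
    (hact : ∀ (W : Gr Set.univ k) (l : ℕ) (b : BG Set.univ), b ∈ stage Set.univ l →
      act Set.univ k (W, b) ∈ stage Set.univ (k + l + 1))
    (H1 : ∀ l, ∃ H : C(unitInterval × (Gr {1} k × stageLC goodU l), BG {1}),
      (∀ W a, H (0, (W, a)) = ρ (k + l + 1) ⟨act Set.univ k (uk W, a.1), hact _ _ _ a.2⟩) ∧
      ∀ W a, H (1, (W, a)) = act {1} k (W, ρ l a))
    (H2 : ∀ l, ∃ H : C(unitInterval × stageLC good1 l, BG {1}),
      (∀ a, H (0, a) = ρ l (stMap U hU l a)) ∧ ∀ a, H (1, a) = a.1) :
    ∃ (J : hP.obj (tele (mulMap f')) ⟶ hP.obj (model f'))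
      (R : hP.obj (model f') ⟶ hP.obj (tele (mulMap f))),
      hP.map (modelInc f') ≫ J = 𝟙 _ ∧
      (∀ n, (R.app n).app (op ((levelsModel goodU he f').T n))
        (ucl (model f') n ((levelsModel goodU he f').T n) (lvP (levelsModel goodU he f') n)) =
        ucl (tele (mulMap f)) n ((levelsModel goodU he f').T n) (xiN f ρ n)) ∧
      hP.map (telU f f' U hU uk huk hff) ≫ J ≫ R = 𝟙 _ := by
  have i1 : IsIso (hP.map (modelInc f)) :=
    (stableEquiv_iff _).1 (stableEquiv_modelInc good1 he f)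
  have i2 : IsIso (hP.map (modelInc f')) :=
    (stableEquiv_iff _).1 (stableEquiv_modelInc goodU he f')
  have hpt : uk (Gr.pt {1} k) = Gr.pt Set.univ k := huk _
  obtain ⟨R, hR⟩ := (levelsModel goodU he f').yoneda_hP (tele (mulMap f))
    (fun n => ucl (tele (mulMap f)) n ((levelsModel goodU he f').T n) (xiN f ρ n)) (by
      intro n
      refine (res_ucl _ _ _ _ _ _).trans ?_
      refine Eq.trans ?_ (σ_ucl _ _ _ _).symm
      exact ucl_homotopic _ _ _ (compat f f' ρ he uk hpt hff hact H1 n))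
  refine ⟨inv (hP.map (modelInc f')), R, IsIso.hom_inv_id _, fun n => ?_, ?_⟩
  · have a5 := hR n
    rw [u_eq] at a5
    exact a5
  rw [← cancel_epi (hP.map (modelInc f))]
  have h3 : hP.map (modelInc f) ≫ hP.map (telU f f' U hU uk huk hff) =
      hP.map (modU f f' U hU uk huk hff) ≫ hP.map (modelInc f') := by
    rw [← hP.map_comp, ← hP.map_comp, modU_comp]
  rw [← Category.assoc, h3, Category.assoc, IsIso.hom_inv_id_assoc, Category.comp_id]
  refine (levelsModel good1 he f).hom_ext _ fun n => ?_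
  have a1 := map_ucl (modU f f' U hU uk huk hff) n ((levelsModel good1 he f).T n)
    (lvP (levelsModel good1 he f) n)
  have a2 := map_ucl (modelInc f) n ((levelsModel good1 he f).T n)
    (lvP (levelsModel good1 he f) n)
  have a1' := a1.trans (congrArg (ucl (model f') n ((levelsModel good1 he f).T n))
    (post_modU f f' U hU uk huk hff he n))
  have a3 := res_ucl (model f') n ((levelsModel good1 he f).test n)
    ((levelsModel goodU he f').test n) (psiK U hU n) (lvP (levelsModel goodU he f') n)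
  have a4 := res_ucl (tele (mulMap f)) n ((levelsModel good1 he f).test n)
    ((levelsModel goodU he f').test n) (psiK U hU n) (xiN f ρ n)
  have a5 := hR n
  rw [u_eq] at a5 ⊢
  refine Eq.trans ?_ ((ucl_homotopic _ _ _ (homotopic_inc f ρ U hU he H2 n)).trans a2.symm)
  refine (congrArg ((R.app n).app (op ((levelsModel good1 he f).T n))) (a1'.trans a3.symm)).trans ?_
  refine Eq.trans ?_ a4
  refine Eq.trans ?_ (congrArg _ a5)
  exact NatTrans.naturality_apply (R.app n) _ _

end

/-- the inverse of the inclusion of the Grassmannian in the stage -/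
def sInv (l : ℕ) : C(stageLC goodU l, Gr Set.univ l) :=
  ⟨(stHomeo goodU l).symm, (stHomeo goodU l).symm.continuous⟩

theorem toBG_sInv (l : ℕ) (a : stageLC goodU l) : toBG Set.univ l (sInv l a) = a.1 :=
  congrArg Subtype.val ((stHomeo goodU l).apply_symm_apply a)

/-- the map of the telescopes of `BSU` and `BU` -/
def tU {e k : ℕ} (f : GenLoop (Fin (2 * e)) (Gr {1} k) (Gr.pt {1} k)) :
    tele (mulMap f) ⟶ tele (mulMap (loopToU f)) :=
  telU f (loopToU f) BG.toU (fun _ _ => rfl) Gr.toU (fun _ => rfl) (fun _ => rfl)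

theorem bsu_retract0 {e k : ℕ} (he : 0 < 2 * e)
    (f : GenLoop (Fin (2 * e)) (Gr {1} k) (Gr.pt {1} k)) (V : ∀ l, DetVec l) :
    ∃ (J : hP.obj (tele (mulMap (loopToU f))) ⟶ hP.obj (model (loopToU f)))
      (R : hP.obj (model (loopToU f)) ⟶ hP.obj (tele (mulMap f))),
      hP.map (modelInc (loopToU f)) ≫ J = 𝟙 _ ∧
      (∀ n, (R.app n).app (op ((levelsModel goodU he (loopToU f)).T n))
        (ucl (model (loopToU f)) n ((levelsModel goodU he (loopToU f)).T n)
          (lvP (levelsModel goodU he (loopToU f)) n)) =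
        ucl (tele (mulMap f)) n ((levelsModel goodU he (loopToU f)).T n)
          (xiN f (fun l => (V l).r.comp (sInv l)) n)) ∧
      hP.map (tU f) ≫ J ≫ R = 𝟙 _ := by
  have hact : ∀ (W : Gr Set.univ k) (l : ℕ) (b : BG Set.univ), b ∈ stage Set.univ l →
      act Set.univ k (W, b) ∈ stage Set.univ (k + l + 1) := fun W l b hb =>
    stage_succ _ _ (act_mem_stage Set.univ k l W hb)
  refine retract_core0 f (loopToU f) (fun l => (V l).r.comp (sInv l)) BG.toU (fun _ _ => rfl)
    Gr.toU (fun _ => rfl) (fun _ => rfl) he hact (fun l => ?_) (fun l => ?_)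
  · obtain ⟨H⟩ := (((DetVec.r_next (V (k + l)) (V (k + l + 1))).comp (.refl
      ((Gr.sum Set.univ k l).comp
        (ContinuousMap.prodMap Gr.toU (ContinuousMap.id (Gr Set.univ l)))))).trans
      (DetVec.r_sum (V l) (V (k + l)))).comp
      (.refl (ContinuousMap.prodMap (ContinuousMap.id (Gr {1} k)) (sInv l)))
    refine ⟨H.toContinuousMap, fun W a => (H.apply_zero (W, a)).trans ?_,
      fun W a => H.apply_one (W, a)⟩
    refine congrArg (V (k + l + 1)).r (Bsu5.toBG_injective goodU _ ?_)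
    exact ((toBG_next_sum k l (Gr.toU W) (sInv l a)).trans
      (congrArg (fun b => act Set.univ k (Gr.toU W, b)) (toBG_sInv l a))).trans
      (toBG_sInv (k + l + 1) ⟨act Set.univ k (Gr.toU W, a.1), hact _ _ _ a.2⟩).symm
  · obtain ⟨H⟩ := (DetVec.r_toU (V l)).comp (.refl
      (⟨(stHomeo good1 l).symm, (stHomeo good1 l).symm.continuous⟩ :
        C(stageLC good1 l, Gr {1} l)))
    refine ⟨H.toContinuousMap, fun a => (H.apply_zero a).trans ?_,
      fun a => (H.apply_one a).trans ?_⟩
    · refine congrArg (V l).r (Bsu5.toBG_injective goodU _ ?_)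
      rw [toBG_sInv]
      exact (toBG_toU l _).trans (congrArg BG.toU
        (congrArg Subtype.val ((stHomeo good1 l).apply_symm_apply a)))
    · exact congrArg Subtype.val ((stHomeo good1 l).apply_symm_apply a)

/-! ### The projection on the stages -/

theorem exists_V (l : ℕ) : ∃ (V : DetVec l) (σ : Fin l ≃ Fin l), ∀ x : Gr Set.univ l,
    toBG {1} (detN (Fin l)) (detQ (Fin l) (GK.reindex σ (Gr.toGK x))) = V.r x := by
  have key : ∀ (m : ℕ) (_ : m = l) (ε : Fin l ≃ Fin m) (V : DetVec m)
      (_ : ∀ x : Gr Set.univ m, toBG {1} (detN (Fin l))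
        (detQ (Fin l) ((GK.reindex ε).symm (Gr.toGK x))) = V.r x),
      ∃ (V : DetVec l) (σ : Fin l ≃ Fin l), ∀ x : Gr Set.univ l,
        toBG {1} (detN (Fin l)) (detQ (Fin l) (GK.reindex σ (Gr.toGK x))) = V.r x := by
    intro m hm ε V hV
    subst hm
    exact ⟨V, ε.symm, hV⟩
  obtain ⟨V, hV⟩ := detQ_spec (Fin l)
  exact key _ (Fintype.card_fin l) _ V hV

theorem stageGK_toBG (l : ℕ) (x : Gr Set.univ l) (h : toBG Set.univ l x ∈ stage Set.univ l) :
    stageGK l ⟨toBG Set.univ l x, h⟩ = Gr.toGK x := by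
  induction x using Quot.ind with | _ A => ?_
  exact (exists_stageGK l).choose_spec A

theorem stageGK_sInv (l : ℕ) (a : stageLC goodU l) : stageGK l a = Gr.toGK (sInv l a) := by
  rw [← stageGK_toBG l (sInv l a) ⟨_, rfl⟩]
  exact congrArg _ (Subtype.ext (toBG_sInv l a).symm)

/-- the map of the stages of `V - det V + 1` -/
def qS (l : ℕ) (σ : Fin l ≃ Fin l) : C(stageLC goodU l, stageLC goodU (detN (Fin l))) where
  toFun a := ⟨toBG Set.univ (detN (Fin l)) (Gr.toU (detQ (Fin l) (GK.reindex σ (stageGK l a)))),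
    ⟨_, rfl⟩⟩
  continuous_toFun := by
    refine Continuous.subtype_mk ?_ _
    refine (toBG Set.univ _).continuous.comp (Gr.toU.continuous.comp
      ((detQ (Fin l)).continuous.comp ?_))
    exact (GK.reindex σ).continuous.comp (stageGK l).continuous

theorem qS_gst (R : GBiv) (l : ℕ) (σ : Fin l ≃ Fin l) :
    R.comp (R.J (PMap.ofC (K := stageLC goodU l) (L := stageLC goodU (detN (Fin l)))
      (qS l σ))) (gst R (detN (Fin l))) =
      R.comp (R.J (PMap.ofHomeo (stageGK l))) (thetaP R (Fin l)) := by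
  have h1 := thetaP_reindex R σ
  rw [← h1]
  unfold gst thetaP GBiv.suCls
  rw [← R.assoc, ← R.J_comp, ← R.assoc, ← R.assoc, ← R.J_comp, ← R.J_comp]
  congr 2
  ext a
  change ((stageGK (detN (Fin l)) (qS l σ a) : LC.G (Fin (detN (Fin l)))) :
    OnePoint (LC.G (Fin (detN (Fin l))))) =
    ((Gr.toGK (Gr.toU (detQ (Fin l) (GK.reindex σ (stageGK l a)))) :
      LC.G (Fin (detN (Fin l)))) : OnePoint (LC.G (Fin (detN (Fin l)))))
  exact congrArg _ (stageGK_toBG _ _ _)

/-! ### The theorem -/

theorem bsu_pi_core {k e : ℕ} (he : 0 < e) (g : GenLoop (Fin (2 * e)) (Gr {1} k) (Gr.pt {1} k))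
    (T : LocTheory (loopDatum (loopGK (loopToU g)))) (a : T.Hom (LC.cpow (Fin e)) LC.point)
    (ha : IsHur T.toGBiv (loopGK (loopToU g)) a) (ϖ : NTr T.toBiv T.toBiv)
    (hϖ : ∀ (κ : Type) [Fintype κ], ϖ.F (T.g κ) = thetaP T.toGBiv κ) (hl : ϖ.Lin a a)
    (W : T.toBiv.gf ⟶ T.toBiv.gf)
    (hW : ∀ (b : ℕ) (K : Test) (x : T.Hom K.obj (Zb b)), (W.app b).app (op K) x =
      (ϖ.F x : T.Hom K.obj (Zb b))) :
    ∃ (i : hP.obj (tele (mulMap g)) ⟶ T.toBiv.gf) (r : T.toBiv.gf ⟶ hP.obj (tele (mulMap g))),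
      i ≫ r = 𝟙 _ ∧ r ≫ i = W := by
  have he2 : 0 < 2 * e := by omega
  obtain ⟨β, β', b, Θ, hβ, hβ1, hβ2, hb, hΘ⟩ := comparison0 he (loopToU g) T
  have haβ : a = β := collSph_injective T.toBiv (ha.trans hβ.symm)
  subst haβ
  have hgood := good_com ϖ
  have hca : ϖ.Com a := NTr.com_of_lin ϖ a hl
  have hcβ' : ϖ.Com β' := hgood.split a β' hca (by
    rw [hβ1]
    exact hgood.J _) hβ2
  have hcb : ∀ n, ϖ.Com (b.b n) := fun n => good_level hgood he hcβ' b hb n
  choose V σ hV using exists_V
  obtain ⟨J, R, hJ, hR, hid⟩ := bsu_retract0 he2 g V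
  have hm : IsIso (hP.map (modelInc (loopToU g))) :=
    (stableEquiv_iff _).1 (stableEquiv_modelInc goodU he2 (loopToU g))
  refine ⟨hP.map (tU g) ≫ Θ.hom, Θ.inv ≫ J ≫ R, ?_, ?_⟩
  · rw [Category.assoc, Iso.hom_inv_id_assoc, hid]
  · have hmain : R ≫ hP.map (tU g) ≫ Θ.hom = hP.map (modelInc (loopToU g)) ≫ Θ.hom ≫ W := by
      refine (levelsModel goodU he2 (loopToU g)).hom_ext _ fun n => ?_
      rw [u_eq]
      obtain ⟨l, hl⟩ : ∃ l, l = blk (2 * e) (2 * n) * (k + 1) := ⟨_, rfl⟩
      -- the left side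
      have a1 := map_ucl (tU g) n ((levelsModel goodU he2 (loopToU g)).T n)
        (xiN g (fun l => (V l).r.comp (sInv l)) n)
      have a2 : PMap.post (Prespectrum.Hom.map (tU g) (2 * n))
          (Prespectrum.Hom.map (tU g) (2 * n)).continuous
          (Prespectrum.Hom.map_pt (tU g) (2 * n))
          (xiN g (fun l => (V l).r.comp (sInv l)) n) =
            (xs (loopToU g) (detN (Fin (blk (2 * e) (2 * n) * (k + 1)))) n).comp
              (PMap.ltens (LC.rpow (Fin (lev (2 * e) (2 * n))))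
                (PMap.ofC (qS (blk (2 * e) (2 * n) * (k + 1)) (σ _)))) := by
        ext ⟨x, c⟩
        change (Sph.mk (sqv x) (BG.toU ((V (blk (2 * e) (2 * n) * (k + 1))).r
          (sInv (blk (2 * e) (2 * n) * (k + 1)) c))) : Sph (lev (2 * e) (2 * n)) (BG Set.univ)) =
            Sph.mk (sqv x) (qS (blk (2 * e) (2 * n) * (k + 1)) (σ _) c).1
        refine congrArg _ ?_
        rw [← hV]
        refine (toBG_toU _ _).symm.trans ?_
        change _ = toBG Set.univ _ (Gr.toU (detQ _ (GK.reindex (σ _) (stageGK _ c))))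
        rw [stageGK_sInv]
      have a3 := theta_res T.toGBiv Θ.hom (isTest_XK e (blk (2 * e) (2 * n) * (k + 1)) n)
        (isTest_XK e (detN (Fin (blk (2 * e) (2 * n) * (k + 1)))) n)
        (PMap.ltens (LC.rpow (Fin (lev (2 * e) (2 * n))))
          (PMap.ofC (qS (blk (2 * e) (2 * n) * (k + 1)) (σ _))))
        (xs (loopToU g) (detN (Fin (blk (2 * e) (2 * n) * (k + 1)))) n) (hΘ _ n)
      rw [tcl_eq, vcl_pull, qS_gst] at a3
      -- the right side
      have b1 := map_ucl (modelInc (loopToU g)) n ((levelsModel goodU he2 (loopToU g)).T n)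
        (lvP (levelsModel goodU he2 (loopToU g)) n)
      have b2 : PMap.post (Prespectrum.Hom.map (modelInc (loopToU g)) (2 * n))
          (Prespectrum.Hom.map (modelInc (loopToU g)) (2 * n)).continuous
          (Prespectrum.Hom.map_pt (modelInc (loopToU g)) (2 * n))
          (lvP (levelsModel goodU he2 (loopToU g)) n) =
            xs (loopToU g) (blk (2 * e) (2 * n) * (k + 1)) n := by
        ext ⟨x, c⟩
        exact congrArg (fun y : (model (loopToU g)).sp (2 * n) => y.1)
          (lvP_levelsModel goodU he2 (loopToU g) n (x, c))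
      have b3 := hΘ (blk (2 * e) (2 * n) * (k + 1)) n
      have b4 : ϖ.F (tcl T.toGBiv b (blk (2 * e) (2 * n) * (k + 1)) n) =
          vcl T.toGBiv b (T.comp (T.J (PMap.ofHomeo (stageGK (blk (2 * e) (2 * n) * (k + 1)))))
            (thetaP T.toGBiv (Fin (blk (2 * e) (2 * n) * (k + 1))))) n := by
        rw [← hϖ, ← ϖ.pre]
        have c1 : ϖ.Com (T.comp (T.J (PMap.ofHomeo (rp (LC.rpow (Fin (lev (2 * e) (2 * n)))))))
            (b.b n)) := hgood.comp _ _ (hgood.J _) (hcb n)
        refine (com_comp ϖ c1 _).trans ?_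
        rw [ntr_ltens]
        rfl
      have lhs : ((R ≫ hP.map (tU g) ≫ Θ.hom).app n).app
          (op ((levelsModel goodU he2 (loopToU g)).T n))
          (ucl (model (loopToU g)) n ((levelsModel goodU he2 (loopToU g)).T n)
            (lvP (levelsModel goodU he2 (loopToU g)) n)) =
          vcl T.toGBiv b (T.comp (T.J (PMap.ofHomeo (stageGK (blk (2 * e) (2 * n) * (k + 1)))))
            (thetaP T.toGBiv (Fin (blk (2 * e) (2 * n) * (k + 1))))) n := by
        refine (congrArg (fun z => (Θ.hom.app n).app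
          (op ((levelsModel goodU he2 (loopToU g)).T n))
          (((hP.map (tU g)).app n).app (op ((levelsModel goodU he2 (loopToU g)).T n)) z))
          (hR n)).trans ?_
        refine (congrArg ((Θ.hom.app n).app (op ((levelsModel goodU he2 (loopToU g)).T n)))
          (a1.trans (congrArg (ucl (tele (mulMap (loopToU g))) n
            ((levelsModel goodU he2 (loopToU g)).T n)) a2))).trans ?_
        exact a3
      have rhs : ((hP.map (modelInc (loopToU g)) ≫ Θ.hom ≫ W).app n).app
          (op ((levelsModel goodU he2 (loopToU g)).T n))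
          (ucl (model (loopToU g)) n ((levelsModel goodU he2 (loopToU g)).T n)
            (lvP (levelsModel goodU he2 (loopToU g)) n)) =
          ϖ.F (tcl T.toGBiv b (blk (2 * e) (2 * n) * (k + 1)) n) := by
        refine (congrArg (fun z => (W.app n).app (op ((levelsModel goodU he2 (loopToU g)).T n))
          ((Θ.hom.app n).app (op ((levelsModel goodU he2 (loopToU g)).T n)) z))
          (b1.trans (congrArg (ucl (tele (mulMap (loopToU g))) n
            ((levelsModel goodU he2 (loopToU g)).T n)) b2))).trans ?_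
        refine (congrArg ((W.app n).app (op ((levelsModel goodU he2 (loopToU g)).T n)))
          b3).trans ?_
        exact hW n ((levelsModel goodU he2 (loopToU g)).T n) _
      exact lhs.trans (b4.symm.trans rhs.symm)
    have hJ2 : J = inv (hP.map (modelInc (loopToU g))) := by
      rw [← cancel_epi (hP.map (modelInc (loopToU g))), hJ, IsIso.hom_inv_id]
    rw [Category.assoc, Category.assoc, hmain, hJ2, IsIso.inv_hom_id_assoc,
      Iso.inv_hom_id_assoc]

end Pool.Agent.Helper75.Stab
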