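import Pool.Agent.Helper1.Stab.Final

/-! The comparison isomorphism on all stages (for packet BP). -/

open CategoryTheory Topology Filter Set Opposite

noncomputable section

namespace Pool.Agent.Helper75.Stab

open Pool.Agent.Helper1.Stab
open Pool.Agent.Helper1.Stab.Bsu5 (xi sqv cast_mk teleStr_two_A teleStr_two_B ucl res_ucl σ_ucl
  map_ucl ucl_homotopic sqv_notMem mk_eq_mk lvP lvP_levelsModel u_eq wv)
open Pool.Agent.Helper39.Stab

section
variable {e k : ℕ} (he : 0 < e) (f : GenLoop (Fin (2 * e)) (Gr Set.univ k) (Gr.pt Set.univ k))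

/-- `ℝ^v` times a stage -/
abbrev XK (e N n : ℕ) : LC :=
  (LC.rpow (Fin (lev (2 * e) (2 * n)))).prod (stageLC goodU N)

theorem isTest_XK (e N n : ℕ) : IsTest (XK e N n) := (isTest_stage goodU N).rprod _

instance instCompactStageU (l : ℕ) : CompactSpace (stageLC goodU l) :=
  isCompact_iff_compactSpace.1 (isCompact_stage Set.univ l)

/-- the map of `ℝ^v` times a stage to the telescope -/
def xs (N n : ℕ) : PMap (XK e N n) ((tele (mulMap f)).sp (2 * n)) :=
  xi (v := lev (2 * e) (2 * n)) (A := stageLC goodU N) ⟨Subtype.val, continuous_subtype_val⟩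

theorem xs_apply (N n : ℕ) (x : Fin (lev (2 * e) (2 * n)) → ℝ) (a : stageLC goodU N) :
    xs f N n (x, a) = Sph.mk (sqv x) a.1 := rfl

theorem xs_coe (N n : ℕ) (w : XK e N n) :
    (xs f N n).plus (w : OnePoint (XK e N n)) = Sph.mk (sqv w.1) w.2.1 := rfl

/-- the class on `ℝ^v` times a stage -/
def tcl (R : GBiv) {β' : R.Hom LC.point (LC.cpow (Fin e))} (b : LevelIso R.toBiv e β')
    (N n : ℕ) : R.Hom (XK e N n) (Zb n) :=
  R.comp (K := XK e N n)
    (R.ltens (LC.rpow (Fin (lev (2 * e) (2 * n)))) (gst R N))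
    (R.comp (R.J (PMap.ofHomeo (Homeomorph.prodPUnit _ :
      (LC.rpow (Fin (lev (2 * e) (2 * n)))).prod LC.point ≃ₜ _))) (b.b n))

/-- the coordinates -/
theorem sqv_cast_cons {v v' : ℕ} (hc : v + 2 = v') (hl : v' = v + 2) (s t : ℝ) (u : Fin v → ℝ) :
    (fun i : Fin v' => squash ((Fin.cons s (Fin.cons t u : Fin (v + 1) → ℝ) :
      Fin (v + 2) → ℝ) (Fin.cast hl i))) =
      fun i : Fin v' => (Fin.cons (squash s) (Fin.cons (squash t) (sqv u) :
        Fin (v + 1) → unitInterval) : Fin (v + 2) → unitInterval) (Fin.cast hc.symm i) := by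
  subst hc
  funext i
  refine Fin.cases rfl (fun j => ?_) i
  refine Fin.cases rfl (fun l => rfl) j

/-- the step inside a block -/
theorem step_in (R : GBiv) {β' : R.Hom LC.point (LC.cpow (Fin e))} (b : LevelIso R.toBiv e β')
    (N n : ℕ) (hlt : lev (2 * e) (2 * n) < 2 * e)
    (hl : lev (2 * e) (2 * (n + 1)) = lev (2 * e) (2 * n) + 2)
    (hodd : lev (2 * e) (2 * n) + 1 ≠ 2 * e) :
    ∃ s : PMap (LC.C.prod (XK e N n)) (XK e N (n + 1)).plus,
      (xs f N (n + 1)).comp s = (tele (mulMap f)).sigC (xs f N n) ∧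
      R.comp (R.J s) (tcl R b N (n + 1)) = R.ltens LC.C (tcl R b N n) := by
  let ζ : LC.rpow (Fin (lev (2 * e) (2 * (n + 1)))) ≃ₜ
      LC.C.prod (LC.rpow (Fin (lev (2 * e) (2 * n)))) := (rcast hl).trans (rcons _)
  let s : PMap (LC.C.prod (XK e N n)) (XK e N (n + 1)).plus :=
    PMap.ofHomeo (K := LC.C.prod (XK e N n)) (L := XK e N (n + 1))
      ((Homeomorph.prodAssoc _ _ _).symm.trans (ζ.symm.prodCongr (Homeomorph.refl _)))
  refine ⟨s, ?_, ?_⟩
  · ext ⟨z, u, y⟩
    have e0 : teleStr (mulMap f) (lev (2 * e) (2 * n + 1)) (squash z.re)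
        (teleStr (mulMap f) (lev (2 * e) (2 * n)) (squash z.im) (Sph.mk (sqv u) y.1)) =
        Sph.cast hl.symm (Sph.mk (Fin.cons (squash z.re) (Fin.cons (squash z.im) (sqv u) :
          Fin (lev (2 * e) (2 * n) + 1) → unitInterval)) y.1) :=
      teleStr_two_A (mulMap f) hlt.ne hodd _ _ _ _ hl.symm
    have e1 : (xs f N (n + 1)).comp s (z, (u, y)) = (Sph.mk (sqv (ζ.symm (z, u))) y.1 :
      Sph (lev (2 * e) (2 * (n + 1))) (BG Set.univ)) := rfl
    have e2 : sqv (ζ.symm (z, u)) = fun i => squash ((Fin.cons z.re (Fin.cons z.im u :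
        Fin (lev (2 * e) (2 * n) + 1) → ℝ) : Fin (lev (2 * e) (2 * n) + 2) → ℝ)
          (Fin.cast hl i)) := by
      funext i
      exact congrArg squash (rcast_symm_apply hl _ i)
    rw [e1, e2, sqv_cast_cons hl.symm hl]
    exact ((cast_mk hl.symm _ _).symm.trans e0.symm)
  · have key := in1 R.toBiv (gst R N) (gst R N) (Homeomorph.refl (stageLC goodU N))
      (R.id_comp _) ζ (b.b n) s (fun z u y => rfl)
    have h3 := b.inside n hlt hl
    unfold tcl
    rw [h3]
    exact key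

/-- the inverse of `Gr.toGK` -/
def grH (k : ℕ) : Gr Set.univ k ≃ₜ GK (Fin k) := by
  have hC : CompactSpace (Gr Set.univ k) := inferInstanceAs (CompactSpace (Quot _))
  have hc2 : Continuous (Equiv.ofBijective _ (Gr.toGK_bijective (k := k))) :=
    Gr.toGK_continuous
  exact hc2.homeoOfEquivCompactToT2

theorem grH_apply (k : ℕ) (W : Gr Set.univ k) : grH k W = Gr.toGK W := rfl

/-- the sum on the stages -/
def mu0 (k N : ℕ) : C(((LC.G (Fin k)).prod (stageLC goodU N) : LC),
    stageLC goodU (k + N)) where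
  toFun x := ⟨act Set.univ k ((grH k).symm x.1, x.2.1), act_mem_stage _ _ _ _ x.2.2⟩
  continuous_toFun := by
    refine Continuous.subtype_mk ?_ _
    refine (act Set.univ k).continuous.comp ?_
    exact ((grH k).symm.continuous.comp continuous_fst).prodMk
      (continuous_subtype_val.comp continuous_snd)

instance instCompactGS (k N : ℕ) : CompactSpace ((LC.G (Fin k)).prod (stageLC goodU N) : LC) :=
  inferInstanceAs (CompactSpace (GK (Fin k) × stageLC goodU N))

theorem mu0_val (k N : ℕ) (W : Gr Set.univ k) (y : stageLC goodU N) :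
    (mu0 k N (Gr.toGK W, y)).1 = act Set.univ k (W, y.1) := by
  change act Set.univ k ((grH k).symm (grH k W), y.1) = _
  rw [Homeomorph.symm_apply_apply]

theorem mu0_class (R : GBiv) (k N : ℕ) :
    R.comp (R.J (PMap.ofC (K := (LC.G (Fin k)).prod (stageLC goodU N))
      (L := stageLC goodU (k + N)) (mu0 k N))) (gst R (k + N)) =
        R.comp (R.comp (R.tens (R.g (Fin k)) (stageLC goodU N))
          (R.ltens LC.point (gst R N))) (R.J (PMap.ofHomeo (rp LC.point))) := by
  obtain ⟨μ, hμ1, hμ2⟩ := mu_class R (rfl : k + N + 1 = k + N + 1) goodU (stageGK _)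
    (exists_stageGK _).choose_spec (stageGK _) (exists_stageGK _).choose_spec
  let χ : C(((LC.G (Fin k)).prod (stageLC goodU N) : LC), stageLC goodU (k + N + 1)) :=
    ⟨fun x => ⟨(mu0 k N x).1, stage_succ _ _ (mu0 k N x).2⟩,
      Continuous.subtype_mk (continuous_subtype_val.comp (mu0 k N).continuous) _⟩
  have h1 : μ = PMap.ofC (K := (LC.G (Fin k)).prod (stageLC goodU N))
      (L := stageLC goodU (k + N + 1)) χ := by
    ext ⟨x, y⟩
    obtain ⟨W, rfl⟩ := (grH k).surjective x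
    refine (hμ1 W y (χ (grH k W, y)) (mu0_val k N W y)).trans ?_
    rfl
  have h2 := HurP.stage_compare R (K := (LC.G (Fin k)).prod (stageLC goodU N))
    (mu0 k N) χ (fun _ => rfl)
  refine h2.trans ?_
  rw [← h1]
  exact hμ2

/-- the coordinates at the end of a block -/
theorem sqv_cast_cons2 {v' : ℕ} (hc : 2 = v') (hl : v' = 0 + 2) (s t : ℝ)
    (g : Fin 1 → unitInterval) (hg : squash t = g 0) (w0 : Fin 0 → ℝ) :
    (fun i : Fin v' => squash ((Fin.cons s (Fin.cons t w0 : Fin (0 + 1) → ℝ) :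
      Fin (0 + 2) → ℝ) (Fin.cast hl i))) =
      fun i : Fin v' => (Fin.cons (squash s) g : Fin 2 → unitInterval) (Fin.cast hc.symm i) := by
  subst hc
  funext i
  refine Fin.cases rfl (fun j => ?_) i
  obtain rfl := Subsingleton.elim j 0
  exact hg

/-- the step map at the end of a block, without the coordinates -/
def st0 (N n : ℕ) (heq : 2 * e = lev (2 * e) (2 * n)) :
    PMap (LC.C.prod (XK e N n)) (LC.C.prod (stageLC goodU (k + N))).plus :=
  (PMap.ltens LC.C (PMap.ofC (K := (LC.G (Fin k)).prod (stageLC goodU N))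
      (L := stageLC goodU (k + N)) (mu0 k N))).comp
    ((PMap.ofHomeo (asc LC.C (LC.G (Fin k)) (stageLC goodU N))).comp
      (PMap.comp ((((PMap.ofHomeo cswap).tens (LC.G (Fin k))).comp
        ((sSplit f).comp ((PMap.ofHomeo cswap).tens (LC.cpow (Fin e))))).tens (stageLC goodU N))
        (PMap.comp (PMap.ofHomeo (asc LC.C (LC.cpow (Fin e)) (stageLC goodU N)).symm)
          (PMap.ltens LC.C ((PMap.ofHomeo ((realifyH e).trans (rcast heq)).symm).tens
            (stageLC goodU N))))))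

theorem st0_apply (N n : ℕ) (heq : 2 * e = lev (2 * e) (2 * n)) (z : LC.C)
    (u : LC.rpow (Fin (lev (2 * e) (2 * n)))) (y : stageLC goodU N) :
    st0 f N n heq (z, (u, y)) =
      (PMap.ltens LC.C (PMap.ofC (K := (LC.G (Fin k)).prod (stageLC goodU N))
        (L := stageLC goodU (k + N)) (mu0 k N))).plus
        ((PMap.ofHomeo (asc LC.C (LC.G (Fin k)) (stageLC goodU N))).plus
        (smashPt (LC.C.prod (LC.G (Fin k))) (stageLC goodU N)
          (((PMap.ofHomeo cswap).tens (LC.G (Fin k))).plus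
            (sSplit f (cswap z, ((realifyH e).trans (rcast heq)).symm u)), y))) := rfl

theorem st0_ec (n : ℕ) (heq : 2 * e = lev (2 * e) (2 * n)) (z : LC.C)
    (u : LC.rpow (Fin (lev (2 * e) (2 * n)))) :
    (Fin.cons (squash (cswap z).re) fun i => squash (realify e
      (((realifyH e).trans (rcast heq)).symm u) i) : Fin (2 * e + 1) → unitInterval) =
      cc heq z.im u := by
  have e3 : realify e (((realifyH e).trans (rcast heq)).symm u) = (rcast heq).symm u :=
    (realifyH e).apply_symm_apply _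
  rw [e3]
  unfold cc
  congr 1
  funext i
  rw [rcast_symm_apply]

theorem st0_infty (N n : ℕ) (heq : 2 * e = lev (2 * e) (2 * n)) (z : LC.C)
    (u : LC.rpow (Fin (lev (2 * e) (2 * n)))) (y : stageLC goodU N)
    (hc : height (cc heq z.im u) ∈ Cube.boundary (Fin 1)) :
    st0 f N n heq (z, (u, y)) = OnePoint.infty := by
  rw [st0_apply, sSplit_apply, st0_ec, loopSelf_eq, sphToPlus_mem _ hc]
  rfl

theorem st0_coe (N n : ℕ) (heq : 2 * e = lev (2 * e) (2 * n)) (z : LC.C)
    (u : LC.rpow (Fin (lev (2 * e) (2 * n)))) (y : stageLC goodU N)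
    (hc : height (cc heq z.im u) ∉ Cube.boundary (Fin 1)) :
    st0 f N n heq (z, (u, y)) =
      (((⟨z.re, unsquash (height (cc heq z.im u) 0)⟩ : ℂ),
        mu0 k N (Gr.toGK (Wc f (cc heq z.im u)), y)) :
          LC.C.prod (stageLC goodU (k + N))) := by
  rw [st0_apply, sSplit_apply, st0_ec, loopSelf_eq, sphToPlus_notMem _ hc]
  rfl

/-- `ℝ^0 = pt`, as in the level isomorphisms -/
def p00 : LC.rpow (Fin 0) ≃ₜ LC.point :=
  { toFun := fun _ => PUnit.unit
    invFun := fun _ => 0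
    left_inv := fun _ => Subsingleton.elim _ _
    right_inv := fun _ => rfl
    continuous_toFun := continuous_const
    continuous_invFun := continuous_const }

/-- the coordinates at the end of a block -/
def azH (n : ℕ) (hl : lev (2 * e) (2 * (n + 1)) = 0 + 2) :
    LC.rpow (Fin (lev (2 * e) (2 * (n + 1)))) ≃ₜ LC.C :=
  (((rcast hl).trans (rcons 0)).trans
    (show LC.C.prod (LC.rpow (Fin 0)) ≃ₜ LC.C.prod LC.point from
      (Homeomorph.refl LC.C).prodCongr p00)).trans (rp LC.C)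

theorem azH_symm (n : ℕ) (hl : lev (2 * e) (2 * (n + 1)) = 0 + 2) (s t : ℝ) :
    (azH n hl).symm ⟨s, t⟩ = fun i => (Fin.cons s (Fin.cons t (0 : Fin 0 → ℝ) :
      Fin (0 + 1) → ℝ) : Fin (0 + 2) → ℝ) (Fin.cast hl i) := by
  funext i
  exact rcast_symm_apply hl _ i

/-- the step map at the end of a block -/
def stB (N n : ℕ) (heq : 2 * e = lev (2 * e) (2 * n))
    (hl : lev (2 * e) (2 * (n + 1)) = 0 + 2) :
    PMap (LC.C.prod (XK e N n)) (XK e (k + N) (n + 1)).plus :=
  (PMap.ofHomeo (K := LC.C.prod (stageLC goodU (k + N))) (L := XK e (k + N) (n + 1))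
    ((azH n hl).symm.prodCongr (Homeomorph.refl _))).comp (st0 f N n heq)

theorem stB_spec (N n : ℕ) (heq : 2 * e = lev (2 * e) (2 * n))
    (hl : lev (2 * e) (2 * (n + 1)) = 0 + 2) (x : LC.C.prod (XK e N n)) :
    ((PMap.ofHomeo (azH n hl)).tens (stageLC goodU (k + N))).plus (stB f N n heq hl x) =
      st0 f N n heq x := by
  change ((PMap.ofHomeo (azH n hl)).tens (stageLC goodU (k + N))).plus
    ((PMap.ofHomeo (K := LC.C.prod (stageLC goodU (k + N))) (L := XK e (k + N) (n + 1))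
    ((azH n hl).symm.prodCongr (Homeomorph.refl _))).plus (st0 f N n heq x)) = _
  generalize st0 f N n heq x = w
  induction w using OnePoint.rec with
  | infty => rfl
  | coe w =>
    obtain ⟨w1, w2⟩ := w
    change (((azH n hl ((azH n hl).symm w1), w2) : LC.C.prod (stageLC goodU (k + N))) :
      OnePoint (LC.C.prod (stageLC goodU (k + N)))) = _
    rw [Homeomorph.apply_symm_apply]

theorem squash_unsquash_height (c : Fin (2 * e + 1) → unitInterval)
    (hc : height c ∉ Cube.boundary (Fin 1)) : squash (unsquash (height c 0)) = height c 0 := by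
  apply Subtype.ext
  have h0 : height c 0 ≠ 0 := fun h' => hc ⟨0, Or.inl h'⟩
  have h1 : height c 0 ≠ 1 := fun h' => hc ⟨0, Or.inr h'⟩
  refine squash_unsquash ?_ ?_
  · exact lt_of_le_of_ne (height c 0).2.1 (fun h' => h0 (Subtype.ext h'.symm))
  · exact lt_of_le_of_ne (height c 0).2.2 (fun h' => h1 (Subtype.ext h'))

/-- the step at the end of a block -/
theorem step_bd (R : GBiv) {β' : R.Hom LC.point (LC.cpow (Fin e))}
    (ρ : R.Hom (LC.cpow (Fin e)) (LC.G (Fin k)))
    (hs : R.J (sSplit f) = R.ltens LC.C ρ)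
    (hβ : R.comp (R.comp ρ (R.g (Fin k))) β' = R.J (PMap.id _))
    (b : LevelIso R.toBiv e β') (N n : ℕ) (heq : 2 * e = lev (2 * e) (2 * n))
    (hl : lev (2 * e) (2 * (n + 1)) = 0 + 2) (h1 : 1 ≠ 2 * e) :
    ∃ s : PMap (LC.C.prod (XK e N n)) (XK e (k + N) (n + 1)).plus,
      (xs f (k + N) (n + 1)).comp s = (tele (mulMap f)).sigC (xs f N n) ∧
      R.comp (R.J s) (tcl R b (k + N) (n + 1)) = R.ltens LC.C (tcl R b N n) := by
  refine ⟨stB f N n heq hl, ?_, ?_⟩
  · ext ⟨z, u, y⟩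
    have hc : 2 = lev (2 * e) (2 * (n + 1)) := hl.symm
    have e0 : teleStr (mulMap f) (lev (2 * e) (2 * n + 1)) (squash z.re)
        (teleStr (mulMap f) (lev (2 * e) (2 * n)) (squash z.im) (Sph.mk (sqv u) y.1)) =
        Sph.cast hc (Sph.mk (Fin.cons (squash z.re) (height (cc heq z.im u)) :
          Fin 2 → unitInterval) (act Set.univ k (Wc f (cc heq z.im u), y.1))) :=
      teleStr_two_B (mulMap f) heq.symm h1 _ _ _ _ _ _ rfl hc
    refine Eq.trans ?_ ((cast_mk hc _ _).symm.trans e0.symm)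
    change (xs f (k + N) (n + 1)).plus
      ((PMap.ofHomeo (K := LC.C.prod (stageLC goodU (k + N))) (L := XK e (k + N) (n + 1))
      ((azH n hl).symm.prodCongr (Homeomorph.refl _))).plus (st0 f N n heq (z, (u, y)))) = _
    by_cases hb : height (cc heq z.im u) ∈ Cube.boundary (Fin 1)
    · rw [st0_infty f N n heq z u y hb]
      refine (mk_eq_pt_of_boundary _ _ ?_).symm
      obtain ⟨i, hi⟩ := hb
      refine ⟨Fin.cast hc (Fin.succ i), ?_⟩
      exact hi
    · rw [st0_coe f N n heq z u y hb]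
      have e3 : (xs f (k + N) (n + 1)).plus
          ((PMap.ofHomeo (K := LC.C.prod (stageLC goodU (k + N))) (L := XK e (k + N) (n + 1))
          ((azH n hl).symm.prodCongr (Homeomorph.refl _))).plus
          ((((⟨z.re, unsquash (height (cc heq z.im u) 0)⟩ : ℂ),
            mu0 k N (Gr.toGK (Wc f (cc heq z.im u)), y)) :
              LC.C.prod (stageLC goodU (k + N))) : OnePoint (LC.C.prod (stageLC goodU (k + N))))) =
          Sph.mk (sqv ((azH n hl).symm (⟨z.re, unsquash (height (cc heq z.im u) 0)⟩ : ℂ)))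
            (mu0 k N (Gr.toGK (Wc f (cc heq z.im u)), y)).1 := rfl
      refine e3.trans ?_
      rw [mu0_val, azH_symm]
      refine congrArg (fun w => Sph.mk w (act Set.univ k (Wc f (cc heq z.im u), y.1))) ?_
      exact sqv_cast_cons2 hc hl z.re _ _ (squash_unsquash_height _ hb) _
  · have key := bd4 R.toBiv β' ρ (R.g (Fin k)) (gst R N) (gst R (k + N))
      ((realifyH e).trans (rcast heq)).symm
      (PMap.ofC (K := (LC.G (Fin k)).prod (stageLC goodU N))
        (L := stageLC goodU (k + N)) (mu0 k N)) (mu0_class R k N) hβ (sSplit f) hs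
      ((rcast hl).trans (rcons 0)) p00 (b.b n) (stB f N n heq hl)
      (fun z u y => (stB_spec f N n heq hl (z, (u, y))).trans (st0_apply f N n heq z u y))
    have h3 := b.boundary n heq hl
    unfold tcl
    rw [h3]
    exact key

/-- the class on `ℝ^v × A` of a class on `A` -/
def vcl (R : GBiv) {β' : R.Hom LC.point (LC.cpow (Fin e))} (b : LevelIso R.toBiv e β')
    {A : LC} (c : R.Hom A LC.point) (n : ℕ) :
    R.Hom ((LC.rpow (Fin (lev (2 * e) (2 * n)))).prod A) (Zb n) :=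
  R.comp (R.ltens (LC.rpow (Fin (lev (2 * e) (2 * n)))) c)
    (R.comp (R.J (PMap.ofHomeo (Homeomorph.prodPUnit _ :
      (LC.rpow (Fin (lev (2 * e) (2 * n)))).prod LC.point ≃ₜ _))) (b.b n))

theorem tcl_eq (R : GBiv) {β' : R.Hom LC.point (LC.cpow (Fin e))} (b : LevelIso R.toBiv e β')
    (N n : ℕ) : tcl R b N n = vcl R b (gst R N) n := rfl

theorem vcl_pull (R : GBiv) {β' : R.Hom LC.point (LC.cpow (Fin e))} (b : LevelIso R.toBiv e β')
    {A B : LC} (φ : PMap A B.plus) (c : R.Hom B LC.point) (n : ℕ) :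
    R.comp (R.J (PMap.ltens (LC.rpow (Fin (lev (2 * e) (2 * n)))) φ)) (vcl R b c n) =
      vcl R b (R.comp (R.J φ) c) n := by
  unfold vcl
  rw [R.ltens_J_comp, R.assoc]

variable {f}

theorem theta_res (T : GBiv) (Θ : hP.obj (tele (mulMap f)) ⟶ T.toBiv.gf) {n : ℕ} {K L : LC}
    (hK : IsTest K) (hL : IsTest L) (φ : PMap K L.plus)
    (x : PMap L ((tele (mulMap f)).sp (2 * n))) {c : T.Hom L (Zb n)}
    (h : (Θ.app n).app (op ⟨L, hL⟩) (ucl (tele (mulMap f)) n ⟨L, hL⟩ x) = c) :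
    (Θ.app n).app (op ⟨K, hK⟩) (ucl (tele (mulMap f)) n ⟨K, hK⟩ (x.comp φ)) =
      T.comp (T.J φ) c := by
  have h1 := res_ucl (tele (mulMap f)) n hK hL φ x
  have h2 := app_pbT Θ n (K := ⟨K, hK⟩) (L := ⟨L, hL⟩) φ (ucl (tele (mulMap f)) n ⟨L, hL⟩ x)
  have h3 : (Θ.app n).app (op ⟨K, hK⟩) (Test.res ((hP.obj (tele (mulMap f))).h n) hK hL φ
      (ucl (tele (mulMap f)) n ⟨L, hL⟩ x)) = pbT (T.toBiv.gf.h n) (K := ⟨K, hK⟩)
        (L := ⟨L, hL⟩) φ ((Θ.app n).app (op ⟨L, hL⟩) (ucl (tele (mulMap f)) n ⟨L, hL⟩ x)) := h2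
  rw [h1, h] at h3
  exact h3

/-- one step backwards -/
theorem step_back (T : GBiv) {β' : T.Hom LC.point (LC.cpow (Fin e))}
    (b : LevelIso T.toBiv e β') (Θ : hP.obj (tele (mulMap f)) ⟶ T.toBiv.gf) {N N' n : ℕ}
    (s : PMap (LC.C.prod (XK e N n)) (XK e N' (n + 1)).plus)
    (h1 : (xs f N' (n + 1)).comp s = (tele (mulMap f)).sigC (xs f N n))
    (h2 : T.comp (T.J s) (tcl T b N' (n + 1)) = T.ltens LC.C (tcl T b N n))
    (h : (Θ.app (n + 1)).app (op ⟨XK e N' (n + 1), isTest_XK _ _ _⟩)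
      (ucl (tele (mulMap f)) (n + 1) ⟨XK e N' (n + 1), isTest_XK _ _ _⟩ (xs f N' (n + 1))) =
        tcl T b N' (n + 1)) :
    (Θ.app n).app (op ⟨XK e N n, isTest_XK _ _ _⟩)
      (ucl (tele (mulMap f)) n ⟨XK e N n, isTest_XK _ _ _⟩ (xs f N n)) = tcl T b N n := by
  apply sig_inj T.toBiv.gf n ⟨XK e N n, isTest_XK _ _ _⟩
  refine (app_sig Θ n ⟨XK e N n, isTest_XK _ _ _⟩ _).symm.trans ?_
  have h3 := σ_ucl (tele (mulMap f)) n (isTest_XK e N n) (xs f N n)
  rw [← h1] at h3
  have h4 := theta_res T Θ (isTest_XK e N n).prodC (isTest_XK e N' (n + 1)) s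
    (xs f N' (n + 1)) h
  refine (congrArg ((Θ.app (n + 1)).app (op (Test.cx.obj ⟨XK e N n, isTest_XK _ _ _⟩))) h3).trans
    ?_
  exact h4.trans h2

theorem lev_odd (n : ℕ) (he : 0 < e) : lev (2 * e) (2 * n) + 1 ≠ 2 * e := by
  obtain ⟨a, ha, -⟩ := lev_even_aux he n
  omega

include he in
theorem all_stages (T : GBiv) {β' : T.Hom LC.point (LC.cpow (Fin e))}
    (ρ : T.Hom (LC.cpow (Fin e)) (LC.G (Fin k)))
    (hs : T.J (sSplit f) = T.ltens LC.C ρ)
    (hβ : T.comp (T.comp ρ (T.g (Fin k))) β' = T.J (PMap.id _))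
    (b : LevelIso T.toBiv e β') (Θ : hP.obj (tele (mulMap f)) ⟶ T.toBiv.gf)
    (hΘ : ∀ n, (Θ.app n).app (op ⟨XK e (blk (2 * e) (2 * n) * (k + 1)) n, isTest_XK _ _ _⟩)
      (ucl (tele (mulMap f)) n ⟨XK e (blk (2 * e) (2 * n) * (k + 1)) n, isTest_XK _ _ _⟩
        (xs f (blk (2 * e) (2 * n) * (k + 1)) n)) =
          tcl T b (blk (2 * e) (2 * n) * (k + 1)) n) (N n : ℕ) :
    (Θ.app n).app (op ⟨XK e N n, isTest_XK _ _ _⟩)
      (ucl (tele (mulMap f)) n ⟨XK e N n, isTest_XK _ _ _⟩ (xs f N n)) = tcl T b N n := by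
  obtain ⟨m, hm⟩ : ∃ m, m = (N - blk (2 * e) (2 * n) * (k + 1)) * (2 * e + 1) +
    (2 * e - lev (2 * e) (2 * n)) := ⟨_, rfl⟩
  induction m using Nat.strong_induction_on generalizing N n with
  | _ m ih =>
    by_cases hN : N ≤ blk (2 * e) (2 * n) * (k + 1)
    · let q : C(stageLC goodU N, stageLC goodU (blk (2 * e) (2 * n) * (k + 1))) :=
        ⟨fun a => ⟨a.1, stage_mono Set.univ hN a.2⟩,
          Continuous.subtype_mk continuous_subtype_val _⟩
      have h1 := theta_res T Θ (isTest_XK e N n) (isTest_XK e _ n)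
        (PMap.ltens (LC.rpow (Fin (lev (2 * e) (2 * n)))) (PMap.ofC q))
        (xs f (blk (2 * e) (2 * n) * (k + 1)) n) (hΘ n)
      have h2 : (xs f (blk (2 * e) (2 * n) * (k + 1)) n).comp
          (PMap.ltens (LC.rpow (Fin (lev (2 * e) (2 * n)))) (PMap.ofC q)) = xs f N n := by
        ext ⟨x, a⟩
        rfl
      rw [h2, tcl_eq, vcl_pull] at h1
      refine h1.trans ?_
      have h3 := HurP.stage_compare T (K := stageLC goodU N)
        (ContinuousMap.id _) q (fun _ => rfl)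
      rw [← h3]
      have h4 : T.comp (T.J (PMap.ofC (K := stageLC goodU N) (L := stageLC goodU N)
        (ContinuousMap.id _))) (gst T N) = gst T N := T.id_comp _
      rw [h4, tcl_eq]
    · obtain ⟨h1, h2, h3⟩ := lev_even he n
      rcases h3.lt_or_eq with h | h
      · obtain ⟨hl, hb⟩ := h1 h
        obtain ⟨s, hs1, hs2⟩ := step_in f T b N n h hl (lev_odd n he)
        refine step_back T b Θ s hs1 hs2 (ih _ ?_ N (n + 1) rfl)
        rw [hb, hl, hm]
        generalize (N - blk (2 * e) (2 * n) * (k + 1)) * (2 * e + 1) = x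
        omega
      · obtain ⟨hl, hb⟩ := h2 h.symm
        obtain ⟨s, hs1, hs2⟩ := step_bd f T ρ hs hβ b N n h.symm hl (by omega)
        refine step_back T b Θ s hs1 hs2 (ih _ ?_ (k + N) (n + 1) rfl)
        rw [hb, hl, hm, h]
        obtain ⟨j, hj⟩ : ∃ j, N = blk (2 * e) (2 * n) * (k + 1) + (j + 1) :=
          ⟨N - blk (2 * e) (2 * n) * (k + 1) - 1, by omega⟩
        have e1 : k + N - (blk (2 * e) (2 * n) + 1) * (k + 1) = j := by
          rw [hj, add_mul]
          omega
        have e2 : N - blk (2 * e) (2 * n) * (k + 1) = j + 1 := by omega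
        rw [e1, e2, add_mul]
        omega

end

end Pool.Agent.Helper75.Stab
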