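import Pool.Agent.Helper75.Stab.BPa
import Pool.Agent.Helper1.Stab.T.Pi

/-! The graded functor of `S[BSU][1/x]` is the image of the projection (packet BP). -/

open CategoryTheory Topology Filter Set Opposite

noncomputable section

namespace Pool.Agent.Helper75.Stab

open Pool.Agent.Helper1.Stab
open Pool.Agent.Helper1.Stab.Bsu5 (xi xiN sqv ucl res_ucl σ_ucl
  map_ucl ucl_homotopic lvP lvP_levelsModel u_eq stMap telU modU modU_comp psiK post_modU
  homotopic_inc compat xiN_apply)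
open Pool.Agent.Helper39.Stab

/-! ### Level isomorphisms -/

theorem exists_levelIso0 (R : Biv) {e : ℕ} (he : 0 < e) (β : R.Hom (LC.cpow (Fin e)) LC.point)
    (β' : R.Hom LC.point (LC.cpow (Fin e))) (h1 : R.comp β β' = R.J (PMap.id _))
    (h2 : R.comp β' β = R.J (PMap.id _)) :
    ∃ b : LevelIso R e β', b.b 0 = R.J (PMap.ofHomeo rpow0) := by
  have hβ : R.IsInv β' β := ⟨h2, h1⟩
  choose! B C hB using fun n b c hbc => levelIso_step R he β β' hβ n b c hbc
  let S : ∀ n, {x : R.Hom (LC.rpow (Fin (lev (2 * e) (2 * n)))) (Zb n) ×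
      R.Hom (Zb n) (LC.rpow (Fin (lev (2 * e) (2 * n)))) // R.IsInv x.1 x.2} := fun n =>
    Nat.rec ⟨(R.J (PMap.ofHomeo rpow0), R.J (PMap.ofHomeo rpow0.symm)), R.isInv_homeo rpow0⟩
      (fun n x => ⟨(B n x.1.1 x.1.2, C n x.1.1 x.1.2), (hB n x.1.1 x.1.2 x.2).1⟩) n
  exact ⟨{
    b := fun n => (S n).1.1
    c := fun n => (S n).1.2
    bc := fun n => (S n).2.1
    cb := fun n => (S n).2.2
    inside := fun n => (hB n (S n).1.1 (S n).1.2 (S n).2).2.1
    boundary := fun n => (hB n (S n).1.1 (S n).1.2 (S n).2).2.2 }, rfl⟩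

theorem good_ltens {R : Biv} {p : ∀ {K Z : LC}, R.Hom K Z → Prop} (hp : Good R p)
    {K Z : LC} (V : LC) (x : R.Hom K Z) (hx : p x) : p (R.ltens V x) :=
  hp.comp _ _ (hp.J _) (hp.comp _ _ (hp.tens _ _ hx) (hp.J _))

theorem good_level {R : Biv} {p : ∀ {K Z : LC}, R.Hom K Z → Prop} (hp : Good R p) {e : ℕ}
    (he : 0 < e) {β' : R.Hom LC.point (LC.cpow (Fin e))} (hβ : p β') (b : LevelIso R e β')
    (hb : b.b 0 = R.J (PMap.ofHomeo rpow0)) (n : ℕ) : p (b.b n) := by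
  induction n with
  | zero =>
    rw [hb]
    exact hp.J _
  | succ n ih =>
    obtain ⟨h1, h2, h3⟩ := lev_even he n
    rcases h3.lt_or_eq with h | h
    · rw [b.inside n h (h1 h).1]
      exact hp.comp _ _ (hp.J _) (good_ltens hp _ _ ih)
    · rw [b.boundary n h.symm (h2 h.symm).1]
      exact hp.comp _ _ (hp.J _) (good_ltens hp _ _ (hp.comp _ _ (hp.J _)
        (hp.comp _ _ hβ (hp.comp _ _ (hp.J _) ih))))

theorem com_comp {T : Biv} (O : NTr T T) {Z Z' : LC} {z : T.Hom Z Z'} (hz : O.Com z) {K : LC}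
    (x : T.Hom K Z) : O.F (T.comp x z) = T.comp (O.F x) z := by
  have h1 : ∀ y : T.Hom K Z, T.comp y z = T.comp (T.comp (T.comp y
      (T.J (PMap.ofHomeo (rp Z).symm))) (T.tens z LC.point)) (T.J (PMap.ofHomeo (rp Z'))) := by
    intro y
    rw [T.assoc, tens_point2 T z, T.assoc, ← T.assoc (T.J (PMap.ofHomeo (rp Z).symm)),
      J_homeo_symm' T (rp Z), T.id_comp]
  rw [h1 x, O.post, hz, O.post, ← h1]

theorem ntr_ltens {T R : Biv} (O : NTr T R) {K Z : LC} (V : LC) (x : T.Hom K Z) :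
    O.F (T.ltens V x) = R.ltens V (O.F x) := by
  change O.F (T.comp (T.J _) (T.comp (T.tens x V) (T.J _))) =
    R.comp (R.J _) (R.comp (R.tens (O.F x) V) (R.J _))
  rw [O.pre, O.post, O.tens]

/-! ### The comparison with values -/

theorem hs_split {R : Biv} {e k : ℕ} (f : GenLoop (Fin (2 * e)) (Gr Set.univ k) (Gr.pt Set.univ k))
    (ρ : R.Hom (LC.cpow (Fin e)) (LC.G (Fin k)))
    (hρ : R.J (loopDatum (loopGK f)).s =
        R.comp (R.J (PMap.ofHomeo (consC e))) (R.comp (R.ltens LC.C ρ)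
          (R.J (PMap.ofHomeo (oneC.prodCongr (Homeomorph.refl (GK (Fin k))) :
            LC.C.prod (LC.G (Fin k)) ≃ₜ (LC.cpow (Fin 1)).prod (LC.G (Fin k))))))) :
    R.J (sSplit f) = R.ltens LC.C ρ := by
  have hs' : ∀ s : PMap (LC.cpow (Fin (e + 1))) ((LC.cpow (Fin 1)).prod (LC.G (Fin k))).plus,
      R.J s = R.comp (R.J (PMap.ofHomeo (consC e))) (R.comp (R.ltens LC.C ρ)
        (R.J (PMap.ofHomeo (oneC.prodCongr (Homeomorph.refl (GK (Fin k))) :
          LC.C.prod (LC.G (Fin k)) ≃ₜ (LC.cpow (Fin 1)).prod (LC.G (Fin k)))))) →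
      R.J ((PMap.ofHomeo (K := (LC.cpow (Fin 1)).prod (LC.G (Fin k)))
        (L := LC.C.prod (LC.G (Fin k))) (oneC.prodCongr (Homeomorph.refl (GK (Fin k)))).symm).comp
        (s.comp (PMap.ofHomeo (consC e).symm))) = R.ltens LC.C ρ := by
    intro s hs0
    rw [R.J_comp, R.J_comp, hs0]
    simp only [R.assoc]
    have e1 := J_homeo_symm R (K := LC.C.prod (LC.G (Fin k)))
      (L := (LC.cpow (Fin 1)).prod (LC.G (Fin k))) (oneC.prodCongr (Homeomorph.refl (GK (Fin k))))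
    have e2 := J_homeo_symm' R (consC e)
    rw [e1, R.comp_id, ← R.assoc, e2, R.id_comp]
  exact hs' _ hρ

theorem comparison0 {e k : ℕ} (he : 0 < e)
    (f : GenLoop (Fin (2 * e)) (Gr Set.univ k) (Gr.pt Set.univ k))
    (T : LocTheory (loopDatum (loopGK f))) :
    ∃ (β : T.Hom (LC.cpow (Fin e)) LC.point) (β' : T.Hom LC.point (LC.cpow (Fin e)))
      (b : LevelIso T.toBiv e β') (Θ : hP.obj (tele (mulMap f)) ≅ T.toBiv.gf),
      IsHur T.toGBiv (loopGK f) β ∧ T.comp β β' = T.J (PMap.id _) ∧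
      T.comp β' β = T.J (PMap.id _) ∧ b.b 0 = T.J (PMap.ofHomeo rpow0) ∧
      ∀ N n, (Θ.hom.app n).app (op ⟨XK e N n, isTest_XK _ _ _⟩)
        (ucl (tele (mulMap f)) n ⟨XK e N n, isTest_XK _ _ _⟩ (xs f N n)) =
          tcl T.toGBiv b N n := by
  obtain ⟨ρ, hρ0, hρ⟩ := exists_rho T.toBiv he (loopGK f)
  obtain ⟨β', hβ1, hβ2⟩ := beta_inv (loopGK f) T ρ hρ
  obtain ⟨b, hb⟩ := exists_levelIso0 T.toBiv he (T.comp ρ (T.g (Fin k))) β' hβ1 hβ2
  have hx := levelCls_compatible he f T β' ⟨ρ, hρ, hβ1, hβ2⟩ b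
  obtain ⟨Φ, hΦ⟩ := (levelsModel goodU (d := 2 * e) (by omega) f).yoneda T.toBiv.gf
    T.toBiv.gf_exact T.toBiv.gf_red _ hx
  have hbij : ∀ c K, Function.Bijective ((Φ.app c).app K) := fun c K =>
    ⟨comparison_inj he f T β' ⟨ρ, hρ, hβ1, hβ2⟩ b Φ hΦ c K,
      comparison_surj he f T β' ⟨ρ, hρ, hβ1, hβ2⟩ b Φ hΦ c K⟩
  have hiso : IsIso Φ := GF.isIso_of_bijective Φ hbij
  have hm : IsIso (hP.map (modelInc f)) :=
    (stableEquiv_iff _).1 (stableEquiv_modelInc goodU (by omega) f)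
  refine ⟨_, β', b, (asIso (hP.map (modelInc f))).symm ≪≫ asIso Φ,
    isHur_rho T.toGBiv (loopGK f) ρ hρ0, hβ1, hβ2, hb, ?_⟩
  refine all_stages he T.toGBiv ρ (hs_split f ρ hρ) hβ1 b _ fun n => ?_
  have a2 := map_ucl (modelInc f) n ((levelsModel goodU (d := 2 * e) (by omega) f).T n)
    (lvP (levelsModel goodU (d := 2 * e) (by omega) f) n)
  have a3 : PMap.post (Prespectrum.Hom.map (modelInc f) (2 * n))
      (Prespectrum.Hom.map (modelInc f) (2 * n)).continuous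
      (Prespectrum.Hom.map_pt (modelInc f) (2 * n))
      (lvP (levelsModel goodU (d := 2 * e) (by omega) f) n) =
        xs f (blk (2 * e) (2 * n) * (k + 1)) n := by
    ext ⟨x, a⟩
    exact congrArg (fun y : (model f).sp (2 * n) => y.1)
      (lvP_levelsModel goodU (by omega) f n (x, a))
  have a2' := a2.trans (congrArg (ucl (tele (mulMap f)) n
    ((levelsModel goodU (d := 2 * e) (by omega) f).T n)) a3)
  have a4 := hΦ n
  rw [u_eq] at a4
  have a5 : hP.map (modelInc f) ≫ inv (hP.map (modelInc f)) ≫ Φ = Φ := by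
    rw [IsIso.hom_inv_id_assoc]
  have a6 := congrArg (fun F : hP.obj (model f) ⟶ T.toBiv.gf => (F.app n).app
    (op ((levelsModel goodU (d := 2 * e) (by omega) f).T n))
    (ucl (model f) n ((levelsModel goodU (d := 2 * e) (by omega) f).T n)
      (lvP (levelsModel goodU (d := 2 * e) (by omega) f) n))) a5
  refine Eq.trans ?_ (a6.trans a4)
  exact congrArg (((inv (hP.map (modelInc f)) ≫ Φ).app n).app
    (op ((levelsModel goodU (d := 2 * e) (by omega) f).T n))) a2'.symm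

end Pool.Agent.Helper75.Stab
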